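import Mathlib

set_option autoImplicit false

/-! The maximiser of the local-time variational problem is not unique up to lattice isometries:
dimension two, `β = γ / 4`. -/

namespace Pool.Agent.Results.MP_840660_pr.NotUnique

open Finset Filter Topology

/-- the lattice `ℤ^d` -/
abbrev Lat (d : ℕ) : Type := Fin d → ℤ

/-- nearest neighbours: `‖x - y‖ = 1` -/
def IsNbr {d : ℕ} (x y : Lat d) : Prop := ∑ i, |x i - y i| = 1

instance {d : ℕ} (x y : Lat d) : Decidable (IsNbr x y) := by unfold IsNbr; infer_instance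

/-- the matrix `F`: `-β` on the diagonal, `γ / (2 d)` for nearest neighbours, `0` otherwise -/
noncomputable def Fmat (d : ℕ) (β γ : ℝ) (x y : Lat d) : ℝ :=
  if x = y then -β else if IsNbr x y then γ / (2 * d) else 0

/-- `⟨f, F f⟩` -/
noncomputable def form (d : ℕ) (β γ : ℝ) (f : Lat d → ℝ) : ℝ :=
  ∑' p : Lat d × Lat d, f p.1 * Fmat d β γ p.1 p.2 * f p.2

/-- `w 0, …, w n` is an `n`-step path -/
def IsPath {d : ℕ} (n : ℕ) (w : ℕ → Lat d) : Prop := ∀ i < n, IsNbr (w i) (w (i + 1))

/-- the endpoint-corrected local time `ℓ_n(x) - 1/2 1_{w_0 = x} - 1/2 1_{w_n = x}` -/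
noncomputable def corrTime {d : ℕ} (n : ℕ) (w : ℕ → Lat d) (x : Lat d) : ℝ :=
  (((Finset.range (n + 1)).filter fun i => w i = x).card : ℝ) - (if w 0 = x then 1 / 2 else 0) -
    (if w n = x then 1 / 2 else 0)

/-- the set of probability measures that are pointwise limits of `(1 / n_k) * corrTime n_k w_k`
along `n_k → ∞` -/
def LimitSet (d : ℕ) : Set (Lat d → ℝ) :=
  {f | (∀ x, 0 ≤ f x) ∧ HasSum f 1 ∧ ∃ (n : ℕ → ℕ) (w : ℕ → ℕ → Lat d), Tendsto n atTop atTop ∧
    (∀ k, IsPath (n k) (w k)) ∧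
    ∀ x, Tendsto (fun k => (1 / (n k : ℝ)) * corrTime (n k) (w k) x) atTop (𝓝 (f x))}

/-- `f` maximises `⟨f, F f⟩` over the limit set -/
def IsMaximiser (d : ℕ) (β γ : ℝ) (f : Lat d → ℝ) : Prop :=
  f ∈ LimitSet d ∧ ∀ g ∈ LimitSet d, form d β γ g ≤ form d β γ f

/-- `f' = f ∘ φ` for a lattice isometry `φ x = (s_i x_{σ i} + z_i)_i` with signs `s_i = ±1`, a
permutation `σ` of the coordinates and `z ∈ ℤ^d` -/
def Equivalent {d : ℕ} (f f' : Lat d → ℝ) : Prop :=
  ∃ (σ : Equiv.Perm (Fin d)) (s : Fin d → ℤ) (z : Lat d), (∀ i, s i = 1 ∨ s i = -1) ∧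
    ∀ x, f' x = f (fun i => s i * x (σ i) + z i)

/-! ### the combinatorial bound -/

/-- the inequality around one vertex -/
lemma local_ineq (lam a nE nW nN nS sE sW sN sS qNE qNW qSW qSE : ℝ) (hl : 1 / 4 < lam)
    (ha : 0 < a) (pE : 0 ≤ nE) (pW : 0 ≤ nW) (pN : 0 ≤ nN) (pS : 0 ≤ nS)
    (psE : 0 ≤ sE) (psW : 0 ≤ sW) (psN : 0 ≤ sN) (psS : 0 ≤ sS)
    (pNE : 0 ≤ qNE) (pNW : 0 ≤ qNW) (pSW : 0 ≤ qSW) (pSE : 0 ≤ qSE)
    (h0 : nE + nW + nN + nS = lam + a)
    (hE : 0 < nE → sE + a + qNE + qSE = lam + nE)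
    (hW : 0 < nW → a + sW + qNW + qSW = lam + nW)
    (hN : 0 < nN → qNE + qNW + sN + a = lam + nN)
    (hS : 0 < nS → qSE + qSW + a + sS = lam + nS)
    (zNE : 0 < nE → 0 < nN → qNE = 0) (zNW : 0 < nW → 0 < nN → qNW = 0)
    (zSW : 0 < nW → 0 < nS → qSW = 0) (zSE : 0 < nE → 0 < nS → qSE = 0)
    (mass : a + nE + nW + nN + nS + sE + sW + sN + sS + qNE + qNW + qSW + qSE ≤ 1) :
    (nE = 0 ∨ nE = lam + a) ∧ (nW = 0 ∨ nW = lam + a) ∧ (nN = 0 ∨ nN = lam + a) ∧
      (nS = 0 ∨ nS = lam + a) := by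
  rcases pE.eq_or_lt with e1 | e1 <;> rcases pW.eq_or_lt with e2 | e2 <;>
    rcases pN.eq_or_lt with e3 | e3 <;> rcases pS.eq_or_lt with e4 | e4
  · exfalso; linarith
  · refine ⟨Or.inl e1.symm, Or.inl e2.symm, Or.inl e3.symm, Or.inr (by linarith)⟩
  · refine ⟨Or.inl e1.symm, Or.inl e2.symm, Or.inr (by linarith), Or.inl e4.symm⟩
  · exfalso
    have := hN e3
    have := hS e4
    linarith
  · refine ⟨Or.inl e1.symm, Or.inr (by linarith), Or.inl e3.symm, Or.inl e4.symm⟩
  · exfalso
    have := hW e2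
    have := hS e4
    have := zSW e2 e4
    linarith
  · exfalso
    have := hW e2
    have := hN e3
    have := zNW e2 e3
    linarith
  · exfalso
    have := hW e2
    have := hN e3
    have := hS e4
    have := zNW e2 e3
    have := zSW e2 e4
    linarith
  · refine ⟨Or.inr (by linarith), Or.inl e2.symm, Or.inl e3.symm, Or.inl e4.symm⟩
  · exfalso
    have := hE e1
    have := hS e4
    have := zSE e1 e4
    linarith
  · exfalso
    have := hE e1
    have := hN e3
    have := zNE e1 e3
    linarith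
  · exfalso
    have := hE e1
    have := hN e3
    have := hS e4
    have := zNE e1 e3
    have := zSE e1 e4
    linarith
  · exfalso
    have := hE e1
    have := hW e2
    linarith
  · exfalso
    have := hE e1
    have := hW e2
    have := hS e4
    have := zSE e1 e4
    have := zSW e2 e4
    linarith
  · exfalso
    have := hE e1
    have := hW e2
    have := hN e3
    have := zNE e1 e3
    have := zNW e2 e3
    linarith
  · exfalso
    have := hE e1
    have := hW e2
    have := hN e3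
    have := hS e4
    have := zNE e1 e3
    have := zNW e2 e3
    have := zSE e1 e4
    have := zSW e2 e4
    linarith

/-- a nonnegative function of total mass at most one on `ℤ²` with `A g - g = lam` on its
support has `lam ≤ 1/4` -/
lemma comb (G : ℤ → ℤ → ℝ) (lam : ℝ) (hpos : ∀ i j, 0 ≤ G i j)
    (hmass : ∀ (P : Finset (ℤ × ℤ)) (i j : ℤ), ∑ p ∈ P, G (i + p.1) (j + p.2) ≤ 1)
    (heq : ∀ i j, 0 < G i j →
      G (i + 1) j + G (i + -1) j + G i (j + 1) + G i (j + -1) = lam + G i j)
    (hne : ∃ i j, 0 < G i j) : lam ≤ 1 / 4 := by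
  by_contra hl
  push Not at hl
  -- no full unit square
  have hsq : ∀ i j, 0 < G i j → 0 < G (i + 1) j → 0 < G i (j + 1) → 0 < G (i + 1) (j + 1) →
      False := by
    intro i j h1 h2 h3 h4
    have e1 := heq i j h1
    have e2 := heq (i + 1) j h2
    have e3 := heq i (j + 1) h3
    have e4 := heq (i + 1) (j + 1) h4
    have r1 : i + 1 + 1 = i + 2 := by ring
    have r2 : i + 1 + -1 = i := by ring
    have r3 : j + 1 + 1 = j + 2 := by ring
    have r4 : j + 1 + -1 = j := by ring
    rw [r1, r2] at e2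
    rw [r3, r4] at e3
    rw [r1, r2, r3, r4] at e4
    have hm := hmass {(0, 0), (1, 0), (0, 1), (1, 1), (-1, 0), (0, -1), (2, 1), (1, 2), (2, 0),
      (1, -1), (-1, 1), (0, 2)} i j
    rw [Finset.sum_insert (by decide), Finset.sum_insert (by decide),
      Finset.sum_insert (by decide), Finset.sum_insert (by decide),
      Finset.sum_insert (by decide), Finset.sum_insert (by decide),
      Finset.sum_insert (by decide), Finset.sum_insert (by decide),
      Finset.sum_insert (by decide), Finset.sum_insert (by decide),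
      Finset.sum_insert (by decide), Finset.sum_singleton] at hm
    simp only [add_zero] at hm
    linarith
  -- local analysis
  have hloc : ∀ i j, 0 < G i j →
      (G (i + 1) j = 0 ∨ G (i + 1) j = lam + G i j) ∧
      (G (i + -1) j = 0 ∨ G (i + -1) j = lam + G i j) ∧
      (G i (j + 1) = 0 ∨ G i (j + 1) = lam + G i j) ∧
      (G i (j + -1) = 0 ∨ G i (j + -1) = lam + G i j) := by
    intro i j h
    have r1 : i + 1 + 1 = i + 2 := by ring
    have r2 : i + 1 + -1 = i := by ring
    have r3 : j + 1 + 1 = j + 2 := by ring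
    have r4 : j + 1 + -1 = j := by ring
    have r5 : i + -1 + -1 = i + -2 := by ring
    have r6 : i + -1 + 1 = i := by ring
    have r7 : j + -1 + -1 = j + -2 := by ring
    have r8 : j + -1 + 1 = j := by ring
    have hm := hmass {(0, 0), (1, 0), (-1, 0), (0, 1), (0, -1), (2, 0), (-2, 0), (0, 2), (0, -2),
      (1, 1), (-1, 1), (-1, -1), (1, -1)} i j
    rw [Finset.sum_insert (by decide), Finset.sum_insert (by decide),
      Finset.sum_insert (by decide), Finset.sum_insert (by decide),
      Finset.sum_insert (by decide), Finset.sum_insert (by decide),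
      Finset.sum_insert (by decide), Finset.sum_insert (by decide),
      Finset.sum_insert (by decide), Finset.sum_insert (by decide),
      Finset.sum_insert (by decide), Finset.sum_insert (by decide), Finset.sum_singleton] at hm
    simp only [add_zero] at hm
    refine local_ineq lam (G i j) (G (i + 1) j) (G (i + -1) j) (G i (j + 1)) (G i (j + -1))
      (G (i + 2) j) (G (i + -2) j) (G i (j + 2)) (G i (j + -2))
      (G (i + 1) (j + 1)) (G (i + -1) (j + 1)) (G (i + -1) (j + -1)) (G (i + 1) (j + -1))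
      hl h (hpos _ _) (hpos _ _) (hpos _ _) (hpos _ _) (hpos _ _) (hpos _ _) (hpos _ _)
      (hpos _ _) (hpos _ _) (hpos _ _) (hpos _ _) (hpos _ _) (heq i j h) ?_ ?_ ?_ ?_ ?_ ?_ ?_ ?_
      (by linarith)
    · intro h1
      have e := heq (i + 1) j h1
      rw [r1, r2] at e
      exact e
    · intro h1
      have e := heq (i + -1) j h1
      rw [r5, r6] at e
      exact e
    · intro h1
      have e := heq i (j + 1) h1
      rw [r3, r4] at e
      exact e
    · intro h1
      have e := heq i (j + -1) h1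
      rw [r7, r8] at e
      exact e
    · intro h1 h2
      by_contra hq
      exact hsq i j h h1 h2 (lt_of_le_of_ne (hpos _ _) (Ne.symm hq))
    · intro h1 h2
      by_contra hq
      have := hsq (i + -1) j h1 (by rw [r6]; exact h)
        (lt_of_le_of_ne (hpos _ _) (Ne.symm hq)) (by rw [r6]; exact h2)
      exact this
    · intro h1 h2
      by_contra hq
      have := hsq (i + -1) (j + -1) (lt_of_le_of_ne (hpos _ _) (Ne.symm hq))
        (by rw [r6]; exact h2) (by rw [r8]; exact h1) (by rw [r6, r8]; exact h)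
      exact this
    · intro h1 h2
      by_contra hq
      have := hsq i (j + -1) h2 (lt_of_le_of_ne (hpos _ _) (Ne.symm hq))
        (by rw [r8]; exact h) (by rw [r8]; exact h1)
      exact this
  obtain ⟨i, j, h⟩ := hne
  have h0 := heq i j h
  obtain ⟨lE, lW, lN, lS⟩ := hloc i j h
  have hex : G (i + 1) j = lam + G i j ∨ G (i + -1) j = lam + G i j ∨
      G i (j + 1) = lam + G i j ∨ G i (j + -1) = lam + G i j := by
    rcases lE with lE | lE
    · rcases lW with lW | lW
      · rcases lN with lN | lN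
        · right; right; right; linarith
        · exact Or.inr (Or.inr (Or.inl lN))
      · exact Or.inr (Or.inl lW)
    · exact Or.inl lE
  rcases hex with e | e | e | e
  · obtain ⟨-, l, -, -⟩ := hloc (i + 1) j (by rw [e]; linarith)
    have r2 : i + 1 + -1 = i := by ring
    rw [r2] at l
    rcases l with l | l <;> linarith
  · obtain ⟨l, -, -, -⟩ := hloc (i + -1) j (by rw [e]; linarith)
    have r2 : i + -1 + 1 = i := by ring
    rw [r2] at l
    rcases l with l | l <;> linarith
  · obtain ⟨-, -, -, l⟩ := hloc i (j + 1) (by rw [e]; linarith)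
    have r2 : j + 1 + -1 = j := by ring
    rw [r2] at l
    rcases l with l | l <;> linarith
  · obtain ⟨-, -, l, -⟩ := hloc i (j + -1) (by rw [e]; linarith)
    have r2 : j + -1 + 1 = j := by ring
    rw [r2] at l
    rcases l with l | l <;> linarith

/-! ### the quadratic form on finite sets -/

/-- `A - I` -/
noncomputable def Mm (x y : Lat 2) : ℝ := if x = y then -1 else if IsNbr x y then 1 else 0

lemma isNbr_symm {d : ℕ} (x y : Lat d) : IsNbr x y ↔ IsNbr y x := by
  unfold IsNbr
  have : ∀ i, |x i - y i| = |y i - x i| := fun i => abs_sub_comm _ _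
  simp only [this]

lemma Mm_symm (x y : Lat 2) : Mm x y = Mm y x := by
  unfold Mm
  by_cases h : x = y
  · rw [if_pos h, if_pos h.symm]
  · have h' : ¬ y = x := fun hh => h hh.symm
    rw [if_neg h, if_neg h']
    by_cases h2 : IsNbr x y
    · rw [if_pos h2, if_pos ((isNbr_symm x y).1 h2)]
    · rw [if_neg h2, if_neg (fun hh => h2 ((isNbr_symm x y).2 hh))]

lemma isNbr_iff (i j : ℤ) (y : Lat 2) : IsNbr ![i, j] y ↔
    y = ![i + 1, j] ∨ y = ![i + -1, j] ∨ y = ![i, j + 1] ∨ y = ![i, j + -1] := by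
  have hy : ∀ a b : ℤ, y = ![a, b] ↔ y 0 = a ∧ y 1 = b := by
    intro a b
    constructor
    · intro h; rw [h]; exact ⟨rfl, rfl⟩
    · rintro ⟨h1, h2⟩
      funext k
      fin_cases k
      · exact h1
      · exact h2
  unfold IsNbr
  rw [Fin.sum_univ_two, hy, hy, hy, hy]
  simp only [Matrix.cons_val_zero, Matrix.cons_val_one]
  rcases abs_cases (i - y 0) with ⟨h1, h2⟩ | ⟨h1, h2⟩ <;>
    rcases abs_cases (j - y 1) with ⟨h3, h4⟩ | ⟨h3, h4⟩ <;> rw [h1, h3] <;> omega

section finite

variable {Λ : Finset (Lat 2)}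

noncomputable def qf (h : Λ → ℝ) : ℝ := ∑ x : Λ, ∑ y : Λ, h x * Mm x y * h y

noncomputable def gr (h : Λ → ℝ) (x : Λ) : ℝ := ∑ y : Λ, Mm x y * h y

lemma qf_eq_gr (h : Λ → ℝ) : qf h = ∑ x : Λ, h x * gr h x := by
  unfold qf gr
  refine Finset.sum_congr rfl fun x _ => ?_
  rw [Finset.mul_sum]
  exact Finset.sum_congr rfl fun y _ => by ring

lemma qf_line (h u : Λ → ℝ) (t : ℝ) :
    qf (h + t • u) = qf h + 2 * t * (∑ x : Λ, u x * gr h x) + t ^ 2 * qf u := by
  have e1 : ∑ x : Λ, u x * gr h x = ∑ x : Λ, ∑ y : Λ, u x * Mm x y * h y := by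
    unfold gr
    refine Finset.sum_congr rfl fun x _ => ?_
    rw [Finset.mul_sum]
    exact Finset.sum_congr rfl fun y _ => by ring
  have e2 : ∑ x : Λ, ∑ y : Λ, h x * Mm x y * u y = ∑ x : Λ, ∑ y : Λ, u x * Mm x y * h y := by
    rw [Finset.sum_comm]
    refine Finset.sum_congr rfl fun x _ => Finset.sum_congr rfl fun y _ => ?_
    rw [Mm_symm y x]; ring
  have e3 : qf (h + t • u) = ∑ x : Λ, ∑ y : Λ, (h x * Mm x y * h y + t * (u x * Mm x y * h y) +
      t * (h x * Mm x y * u y) + t ^ 2 * (u x * Mm x y * u y)) := by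
    unfold qf
    refine Finset.sum_congr rfl fun x _ => Finset.sum_congr rfl fun y _ => ?_
    simp only [Pi.add_apply, Pi.smul_apply, smul_eq_mul]
    ring
  rw [e3]
  simp only [Finset.sum_add_distrib, ← Finset.mul_sum]
  rw [e1, e2]
  unfold qf
  ring

lemma zero_of_quad (D c δ : ℝ) (hδ : 0 < δ) (H : ∀ t, |t| ≤ δ → 2 * t * D + t ^ 2 * c ≤ 0) :
    D = 0 := by
  by_contra hD
  have hD' : 0 < |D| := abs_pos.2 hD
  have hden : 0 < |D| + δ * |c| := by positivity
  set ε : ℝ := δ * |D| / (|D| + δ * |c|) with hε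
  have hε0 : 0 < ε := by positivity
  have hε1 : ε ≤ δ := by
    rw [hε, div_le_iff₀ hden]
    nlinarith [mul_nonneg (mul_nonneg hδ.le hδ.le) (abs_nonneg c)]
  have hε2 : ε * |c| ≤ |D| := by
    rw [hε, div_mul_eq_mul_div, div_le_iff₀ hden]
    nlinarith [mul_pos hD' hD']
  have hc : -(ε * |c|) ≤ ε * c := by
    have : -|c| ≤ c := neg_abs_le c
    nlinarith
  rcases lt_or_gt_of_ne hD with h | h
  · have h1 := H (-ε) (by rw [abs_neg, abs_of_pos hε0]; exact hε1)
    rw [abs_of_neg h] at hε2 hD'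
    nlinarith
  · have h1 := H ε (by rw [abs_of_pos hε0]; exact hε1)
    rw [abs_of_pos h] at hε2 hD'
    nlinarith

/-- the gradient is constant at an interior maximiser -/
lemma gr_const (h : Λ → ℝ) (hpos : ∀ x, 0 < h x) (hsum : ∑ x, h x = 1)
    (hmax : ∀ g : Λ → ℝ, (∀ x, 0 ≤ g x) → ∑ x, g x = 1 → qf g ≤ qf h) (x y : Λ) :
    gr h x = gr h y := by
  classical
  by_cases hxy : x = y
  · rw [hxy]
  set u : Λ → ℝ := Pi.single x 1 - Pi.single y 1 with hu
  have hus : ∀ z, u z = (if z = x then 1 else 0) - (if z = y then 1 else 0) := by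
    intro z
    rw [hu, Pi.sub_apply, Pi.single_apply, Pi.single_apply]
  have hD : ∑ z, u z * gr h z = gr h x - gr h y := by
    have : ∀ z, u z * gr h z = (if z = x then gr h z else 0) - (if z = y then gr h z else 0) := by
      intro z
      rw [hus z]
      split_ifs <;> ring
    rw [Finset.sum_congr rfl fun z _ => this z, Finset.sum_sub_distrib]
    simp
  have hmin : 0 < min (h x) (h y) := lt_min (hpos x) (hpos y)
  have key := zero_of_quad (gr h x - gr h y) (qf u) (min (h x) (h y)) hmin (fun t ht => by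
    have h1 := hmax (h + t • u) (fun z => by
      simp only [Pi.add_apply, Pi.smul_apply, smul_eq_mul]
      rw [hus z]
      have ht1 : |t| ≤ h x := ht.trans (min_le_left _ _)
      have ht2 : |t| ≤ h y := ht.trans (min_le_right _ _)
      have ha := neg_abs_le t
      have hb := le_abs_self t
      by_cases hzx : z = x
      · have hzy : ¬ (z = y) := fun hh => hxy (hzx.symm.trans hh)
        rw [if_pos hzx, if_neg hzy, hzx]; linarith
      · by_cases hzy : z = y
        · rw [if_neg hzx, if_pos hzy, hzy]; linarith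
        · rw [if_neg hzx, if_neg hzy]
          have := hpos z
          linarith) (by
      simp only [Pi.add_apply, Pi.smul_apply, smul_eq_mul]
      rw [Finset.sum_add_distrib, ← Finset.mul_sum, hsum]
      have : ∑ z, u z = 0 := by
        simp only [hus]
        rw [Finset.sum_sub_distrib]
        simp
      rw [this]; ring)
    rw [qf_line, hD] at h1
    linarith)
  linarith

end finite

/-- extension by zero -/
noncomputable def ext0 {Λ : Finset (Lat 2)} (h : Λ → ℝ) (x : Lat 2) : ℝ :=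
  if hx : x ∈ Λ then h ⟨x, hx⟩ else 0

lemma ext0_mem {Λ : Finset (Lat 2)} (h : Λ → ℝ) (x : Λ) : ext0 h x = h x := by
  unfold ext0; rw [dif_pos x.2]

lemma ext0_notMem {Λ : Finset (Lat 2)} (h : Λ → ℝ) (x : Lat 2) (hx : x ∉ Λ) : ext0 h x = 0 := by
  unfold ext0; rw [dif_neg hx]

/-- the bound at an interior maximiser -/
lemma interior_bound {Λ : Finset (Lat 2)} (hne : Λ.Nonempty) (h : Λ → ℝ) (hpos : ∀ x, 0 < h x)
    (hsum : ∑ x, h x = 1)
    (hmax : ∀ g : Λ → ℝ, (∀ x, 0 ≤ g x) → ∑ x, g x = 1 → qf g ≤ qf h) : qf h ≤ 1 / 4 := by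
  classical
  obtain ⟨x0, hx0⟩ := hne
  have hgr : ∀ x : Λ, gr h x = qf h := by
    intro x
    have h1 : qf h = ∑ z, h z * gr h x := by
      rw [qf_eq_gr]
      exact Finset.sum_congr rfl fun z _ => by rw [gr_const h hpos hsum hmax z x]
    rw [h1, ← Finset.sum_mul, hsum, one_mul]
  set g : Lat 2 → ℝ := ext0 h with hg
  have hg0 : ∀ x, 0 ≤ g x := by
    intro x
    by_cases hx : x ∈ Λ
    · have := ext0_mem h ⟨x, hx⟩
      rw [hg]
      simp only at this
      rw [this]; exact (hpos _).le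
    · rw [hg, ext0_notMem h x hx]
  have hgΛ : ∀ x, 0 < g x → x ∈ Λ := by
    intro x hx
    by_contra hh
    rw [hg, ext0_notMem h x hh] at hx
    exact lt_irrefl _ hx
  have hgs : ∑ x ∈ Λ, g x = 1 := by
    rw [← Finset.sum_coe_sort Λ g, ← hsum]
    exact Finset.sum_congr rfl fun x _ => ext0_mem h x
  refine comb (fun i j => g ![i, j]) (qf h) (fun i j => hg0 _) ?_ ?_ ?_
  · intro P i j
    have hinj : Set.InjOn (fun p : ℤ × ℤ => (![i + p.1, j + p.2] : Lat 2)) P := by
      intro p _ q _ hpq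
      have h0 := congrFun hpq 0
      have h1 := congrFun hpq 1
      simp only [Matrix.cons_val_zero, Matrix.cons_val_one] at h0 h1
      exact Prod.ext (by linarith) (by linarith)
    have e1 : ∑ p ∈ P, g ![i + p.1, j + p.2] =
        ∑ y ∈ P.image (fun p : ℤ × ℤ => (![i + p.1, j + p.2] : Lat 2)), g y := by
      rw [Finset.sum_image hinj]
    rw [e1, ← hgs]
    set Q := P.image (fun p : ℤ × ℤ => (![i + p.1, j + p.2] : Lat 2)) with hQ
    have e2 : ∑ y ∈ Q, g y = ∑ y ∈ Q ∩ Λ, g y := by
      symm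
      refine Finset.sum_subset Finset.inter_subset_left fun y hy hy' => ?_
      have : y ∉ Λ := fun hh => hy' (Finset.mem_inter.2 ⟨hy, hh⟩)
      rw [hg, ext0_notMem h y this]
    rw [e2]
    exact Finset.sum_le_sum_of_subset_of_nonneg Finset.inter_subset_right fun y _ _ => hg0 y
  · intro i j hij
    have hx : (![i, j] : Lat 2) ∈ Λ := hgΛ _ hij
    have h1 := hgr ⟨![i, j], hx⟩
    unfold gr at h1
    have h2 : ∑ y : Λ, Mm ![i, j] y * h y = ∑ y ∈ Λ, Mm ![i, j] y * g y := by
      rw [← Finset.sum_coe_sort Λ (fun y => Mm ![i, j] y * g y)]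
      refine Finset.sum_congr rfl fun y _ => ?_
      rw [hg, ext0_mem]
    simp only at h1
    rw [h2] at h1
    have h3 : ∀ y ∈ Λ, Mm ![i, j] y * g y =
        (if y = ![i, j] then -g y else 0) + (if IsNbr ![i, j] y then g y else 0) := by
      intro y _
      unfold Mm
      by_cases hy : y = ![i, j]
      · have hn : ¬ IsNbr ![i, j] y := by
          rw [hy]
          unfold IsNbr
          simp
        rw [if_pos hy.symm, if_pos hy, if_neg hn]; ring
      · rw [if_neg (fun hh => hy hh.symm), if_neg hy]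
        split_ifs <;> ring
    rw [Finset.sum_congr rfl h3, Finset.sum_add_distrib, Finset.sum_ite_eq' Λ, if_pos hx] at h1
    set N : Finset (Lat 2) := {![i + 1, j], ![i + -1, j], ![i, j + 1], ![i, j + -1]} with hN
    have h4 : ∑ y ∈ Λ, (if IsNbr ![i, j] y then g y else 0) = ∑ y ∈ N, g y := by
      rw [← Finset.sum_filter]
      have e1 : Λ.filter (fun y => IsNbr ![i, j] y) = N ∩ Λ := by
        ext y
        rw [Finset.mem_filter, Finset.mem_inter, isNbr_iff, hN]
        simp only [Finset.mem_insert, Finset.mem_singleton]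
        tauto
      rw [e1]
      refine Finset.sum_subset Finset.inter_subset_left fun y hy hy' => ?_
      have : y ∉ Λ := fun hh => hy' (Finset.mem_inter.2 ⟨hy, hh⟩)
      rw [hg, ext0_notMem h y this]
    have hne : ∀ a b c d : ℤ, (a ≠ c ∨ b ≠ d) → (![a, b] : Lat 2) ≠ ![c, d] := by
      intro a b c d hh he
      have h0 := congrFun he 0
      have h1 := congrFun he 1
      simp only [Matrix.cons_val_zero, Matrix.cons_val_one] at h0 h1
      rcases hh with hh | hh
      · exact hh h0
      · exact hh h1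
    have h5 : ∑ y ∈ N, g y =
        g ![i + 1, j] + (g ![i + -1, j] + (g ![i, j + 1] + g ![i, j + -1])) := by
      rw [hN, Finset.sum_insert, Finset.sum_insert, Finset.sum_insert, Finset.sum_singleton]
      · rw [Finset.mem_singleton]; exact hne _ _ _ _ (Or.inr (by omega))
      · rw [Finset.mem_insert, Finset.mem_singleton, not_or]
        exact ⟨hne _ _ _ _ (Or.inl (by omega)), hne _ _ _ _ (Or.inl (by omega))⟩
      · rw [Finset.mem_insert, Finset.mem_insert, Finset.mem_singleton, not_or, not_or]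
        exact ⟨hne _ _ _ _ (Or.inl (by omega)), hne _ _ _ _ (Or.inl (by omega)),
          hne _ _ _ _ (Or.inl (by omega))⟩
    rw [h4, h5] at h1
    linarith
  · refine ⟨x0 0, x0 1, ?_⟩
    have e : (![x0 0, x0 1] : Lat 2) = x0 := by
      funext k; fin_cases k <;> rfl
    rw [e]
    have := ext0_mem h ⟨x0, hx0⟩
    simp only at this
    rw [hg, this]; exact hpos _

lemma simplex_bound (n : ℕ) : ∀ Λ : Finset (Lat 2), Λ.card = n → ∀ h : Λ → ℝ, (∀ x, 0 ≤ h x) →
    ∑ x, h x = 1 → qf h ≤ 1 / 4 := by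
  classical
  induction n with
  | zero =>
    intro Λ hΛ h _ hsum
    exfalso
    have : IsEmpty Λ := by
      rw [Finset.card_eq_zero] at hΛ
      rw [hΛ]; infer_instance
    rw [Fintype.sum_empty] at hsum
    norm_num at hsum
  | succ n ih =>
    intro Λ hΛ h hpos hsum
    have hne : Λ.Nonempty := by rw [← Finset.card_pos]; omega
    have hcomp : IsCompact (stdSimplex ℝ Λ) := isCompact_stdSimplex ℝ Λ
    have hcont : Continuous (fun h : Λ → ℝ => qf h) := by unfold qf; fun_prop
    obtain ⟨g, hg, hmax⟩ := hcomp.exists_isMaxOn ⟨h, hpos, hsum⟩ hcont.continuousOn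
    have hmax' : ∀ f : Λ → ℝ, (∀ x, 0 ≤ f x) → ∑ x, f x = 1 → qf f ≤ qf g := fun f h1 h2 =>
      hmax ⟨h1, h2⟩
    refine (hmax' h hpos hsum).trans ?_
    by_cases hall : ∀ x, 0 < g x
    · exact interior_bound hne g hall hg.2 hmax'
    · push Not at hall
      obtain ⟨x0, hx0⟩ := hall
      have hx00 : g x0 = 0 := le_antisymm hx0 (hg.1 x0)
      set Λ' : Finset (Lat 2) := Λ.erase x0 with hΛ'
      have hcard : Λ'.card = n := by
        rw [hΛ', Finset.card_erase_of_mem x0.2]; omega
      have hsub : ∀ y : Λ', (y : Lat 2) ∈ Λ := fun y => Finset.mem_of_mem_erase y.2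
      have key : ∀ F : Lat 2 → ℝ, F x0 = 0 → ∑ y : Λ, F y = ∑ y : Λ', F y := by
        intro F hF
        rw [Finset.sum_coe_sort, Finset.sum_coe_sort, hΛ',
          ← Finset.add_sum_erase Λ F x0.2, hF, zero_add]
      have hz : ext0 g x0 = 0 := by rw [ext0_mem]; exact hx00
      have h1 := ih Λ' hcard (fun y => ext0 g y) (fun y => by
        have := ext0_mem g ⟨y, hsub y⟩
        simp only at this ⊢
        rw [this]; exact hg.1 _) (by
        rw [← key (ext0 g) hz, ← hg.2]
        exact Finset.sum_congr rfl fun y _ => ext0_mem g y)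
      refine le_trans (le_of_eq ?_) h1
      unfold qf
      rw [← key (fun x => ∑ y : Λ', ext0 g x * Mm x y * ext0 g y) (by simp [hz])]
      refine Finset.sum_congr rfl fun x _ => ?_
      rw [← key (fun y => ext0 g x * Mm x y * ext0 g y) (by simp [hz])]
      refine Finset.sum_congr rfl fun y _ => ?_
      rw [ext0_mem, ext0_mem]

/-- the bound for nonnegative functions and finite sets -/
lemma finite_bound (f : Lat 2 → ℝ) (hf : ∀ x, 0 ≤ f x) (Λ : Finset (Lat 2)) :
    ∑ x ∈ Λ, ∑ y ∈ Λ, f x * Mm x y * f y ≤ 1 / 4 * (∑ x ∈ Λ, f x) ^ 2 := by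
  set S : ℝ := ∑ x ∈ Λ, f x with hS
  have hS0 : 0 ≤ S := Finset.sum_nonneg fun x _ => hf x
  rcases hS0.eq_or_lt with h0 | h0
  · have hz : ∀ x ∈ Λ, f x = 0 := (Finset.sum_eq_zero_iff_of_nonneg fun x _ => hf x).1 h0.symm
    rw [← h0]
    refine le_of_eq ?_
    rw [Finset.sum_eq_zero fun x hx => ?_]
    · norm_num
    · exact Finset.sum_eq_zero fun y _ => by rw [hz x hx]; ring
  · have h1 := simplex_bound Λ.card Λ rfl (fun x => f x / S) (fun x => div_nonneg (hf x) h0.le) (by
      rw [← Finset.sum_div, Finset.sum_coe_sort Λ f, ← hS]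
      exact div_self h0.ne')
    unfold qf at h1
    have h2 : ∑ x : Λ, ∑ y : Λ, f x / S * Mm x y * (f y / S) =
        (∑ x ∈ Λ, ∑ y ∈ Λ, f x * Mm x y * f y) / S ^ 2 := by
      rw [Finset.sum_div, Finset.sum_coe_sort Λ (fun x => ∑ y : Λ, f x / S * Mm x y * (f y / S))]
      refine Finset.sum_congr rfl fun x _ => ?_
      rw [Finset.sum_div, Finset.sum_coe_sort Λ (fun y => f x / S * Mm x y * (f y / S))]
      refine Finset.sum_congr rfl fun y _ => ?_
      field_simp
    rw [h2, div_le_iff₀ (by positivity)] at h1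
    exact h1

/-! ### closed walks -/

section cycle

variable {d m : ℕ}

/-- the normalised occupation measure of the closed walk `v 0, v 1, …, v m, v 0` -/
noncomputable def occ (v : Fin (m + 1) → Lat d) (x : Lat d) : ℝ :=
  ∑ a, if x = v a then 1 / ((m : ℝ) + 1) else 0

/-- the periodic path -/
def per (v : Fin (m + 1) → Lat d) (i : ℕ) : Lat d := v (Fin.ofNat (m + 1) i)

lemma per_periodic (v : Fin (m + 1) → Lat d) (i : ℕ) : per v (i + (m + 1)) = per v i := by
  unfold per
  congr 1
  ext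
  simp

lemma per_succ (v : Fin (m + 1) → Lat d) (i : ℕ) :
    per v (i + 1) = v (Fin.ofNat (m + 1) i + 1) := by
  unfold per
  congr 1
  ext
  simp [Fin.val_add]

lemma occ_nonneg (v : Fin (m + 1) → Lat d) (x : Lat d) : 0 ≤ occ v x := by
  unfold occ
  refine Finset.sum_nonneg fun a _ => ?_
  split_ifs <;> positivity

lemma occ_hasSum (v : Fin (m + 1) → Lat d) : HasSum (occ v) 1 := by
  unfold occ
  have h := hasSum_sum (s := (Finset.univ : Finset (Fin (m + 1))))
    (f := fun a x => if x = v a then 1 / ((m : ℝ) + 1) else 0)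
    (a := fun _ => 1 / ((m : ℝ) + 1)) fun a _ => hasSum_ite_eq (v a) (1 / ((m : ℝ) + 1))
  rw [Finset.sum_const, Finset.card_univ, Fintype.card_fin, nsmul_eq_mul] at h
  have e : ((m + 1 : ℕ) : ℝ) * (1 / ((m : ℝ) + 1)) = 1 := by push_cast; field_simp
  rwa [e] at h

lemma count_period (v : Fin (m + 1) → Lat d) (x : Lat d) (K : ℕ) :
    (((Finset.range ((m + 1) * K)).filter fun i => per v i = x).card : ℝ) =
      K * (((m : ℝ) + 1) * occ v x) := by
  induction K with
  | zero => simp
  | succ K ih =>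
    have h1 : (((Finset.range ((m + 1) * (K + 1))).filter fun i => per v i = x).card : ℝ) =
        ∑ i ∈ Finset.range ((m + 1) * (K + 1)), if per v i = x then (1 : ℝ) else 0 := by
      rw [Finset.sum_boole]
    have h2 : (((Finset.range ((m + 1) * K)).filter fun i => per v i = x).card : ℝ) =
        ∑ i ∈ Finset.range ((m + 1) * K), if per v i = x then (1 : ℝ) else 0 := by
      rw [Finset.sum_boole]
    rw [h1, Nat.mul_succ, Finset.sum_range_add, ← h2, ih]
    have hper : ∀ j, per v ((m + 1) * K + j) = per v j := by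
      intro j
      unfold per
      congr 1
      ext
      simp
    have h3 : ∑ j ∈ Finset.range (m + 1), (if per v ((m + 1) * K + j) = x then (1 : ℝ) else 0) =
        ((m : ℝ) + 1) * occ v x := by
      rw [Finset.sum_range]
      unfold occ
      rw [Finset.mul_sum]
      refine Finset.sum_congr rfl fun a _ => ?_
      rw [hper]
      have : per v (a : ℕ) = v a := by
        unfold per
        congr 1
        ext
        simp
      rw [this]
      by_cases h : v a = x
      · rw [if_pos h, if_pos h.symm]; field_simp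
      · rw [if_neg h, if_neg (fun hh => h hh.symm), mul_zero]
    rw [h3]
    push_cast
    ring

lemma occ_mem (v : Fin (m + 1) → Lat d) (hv : ∀ a, IsNbr (v a) (v (a + 1))) :
    occ v ∈ LimitSet d := by
  refine ⟨occ_nonneg v, occ_hasSum v, fun k => (m + 1) * (k + 1), fun _ => per v, ?_, ?_, ?_⟩
  · refine tendsto_atTop_mono (fun k => ?_) tendsto_id
    simp only [id]
    nlinarith
  · intro k i _
    change IsNbr (per v i) (per v (i + 1))
    rw [per_succ]
    exact hv _
  · intro x
    refine tendsto_const_nhds.congr fun k => ?_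
    have h0 : per v ((m + 1) * (k + 1)) = per v 0 := by
      unfold per
      congr 1
      ext
      simp
    have h1 : corrTime ((m + 1) * (k + 1)) (per v) x =
        ((k : ℝ) + 1) * (((m : ℝ) + 1) * occ v x) := by
      unfold corrTime
      have h2 : (((Finset.range ((m + 1) * (k + 1) + 1)).filter fun i => per v i = x).card : ℝ) =
          (((Finset.range ((m + 1) * (k + 1))).filter fun i => per v i = x).card : ℝ) +
            if per v 0 = x then 1 else 0 := by
        rw [← Finset.sum_boole, ← Finset.sum_boole, Finset.sum_range_succ, h0]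
      rw [h2, count_period, h0]
      push_cast
      split_ifs <;> ring
    rw [h1]
    push_cast
    field_simp

lemma form_occ (β γ : ℝ) (v : Fin (m + 1) → Lat d) :
    form d β γ (occ v) =
      (1 / ((m : ℝ) + 1)) ^ 2 * ∑ a, ∑ b, Fmat d β γ (v a) (v b) := by
  unfold form
  have e : ∀ p : Lat d × Lat d, occ v p.1 * Fmat d β γ p.1 p.2 * occ v p.2 =
      ∑ a : Fin (m + 1), ∑ b : Fin (m + 1), if p = (v a, v b) then
        (1 / ((m : ℝ) + 1)) ^ 2 * Fmat d β γ (v a) (v b) else 0 := by
    intro p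
    unfold occ
    rw [Finset.sum_mul, Finset.sum_mul]
    refine Finset.sum_congr rfl fun a _ => ?_
    rw [Finset.mul_sum]
    refine Finset.sum_congr rfl fun b _ => ?_
    by_cases h1 : p.1 = v a
    · by_cases h2 : p.2 = v b
      · have h3 : p = (v a, v b) := Prod.ext h1 h2
        rw [if_pos h1, if_pos h2, if_pos h3, h1, h2]; ring
      · have h3 : ¬ p = (v a, v b) := fun h => h2 (by rw [h])
        rw [if_neg h2, if_neg h3, mul_zero]
    · have h3 : ¬ p = (v a, v b) := fun h => h1 (by rw [h])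
      rw [if_neg h1, if_neg h3, zero_mul, zero_mul]
  have h := hasSum_sum (s := (Finset.univ : Finset (Fin (m + 1)))) fun a _ =>
    hasSum_sum (s := (Finset.univ : Finset (Fin (m + 1)))) fun b _ =>
      hasSum_ite_eq (v a, v b) ((1 / ((m : ℝ) + 1)) ^ 2 * Fmat d β γ (v a) (v b))
  rw [tsum_congr e, h.tsum_eq, Finset.mul_sum]
  refine Finset.sum_congr rfl fun a _ => ?_
  rw [Finset.mul_sum]

end cycle

/-- the integer matrix `A - I` -/
def Mz (x y : Lat 2) : ℤ := if x = y then -1 else if IsNbr x y then 1 else 0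

lemma Fmat_eq (γ : ℝ) (x y : Lat 2) : Fmat 2 (γ / 4) γ x y = γ / 4 * Mm x y := by
  unfold Fmat Mm
  split_ifs
  · ring
  · push_cast; ring
  · ring

lemma Mm_eq (x y : Lat 2) : Mm x y = (Mz x y : ℝ) := by
  unfold Mm Mz
  split_ifs <;> norm_num

/-- the upper bound for all probability measures -/
lemma form_le (γ : ℝ) (hγ : 0 < γ) (g : Lat 2 → ℝ) (h0 : ∀ x, 0 ≤ g x) (h1 : HasSum g 1) :
    form 2 (γ / 4) γ g ≤ γ / 16 := by
  unfold form
  by_cases hs : Summable fun p : Lat 2 × Lat 2 => g p.1 * Fmat 2 (γ / 4) γ p.1 p.2 * g p.2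
  · have h2 := hs.hasSum
    have h3 : Tendsto (fun Λ : Finset (Lat 2) => Λ ×ˢ Λ) atTop atTop := by
      refine tendsto_atTop_finset_of_monotone (fun a b hab => Finset.product_subset_product hab hab)
        fun x => ⟨{x.1, x.2}, ?_⟩
      rw [Finset.mem_product]
      simp
    have h4 := Tendsto.comp h2 h3
    refine le_of_tendsto h4 (Eventually.of_forall fun Λ => ?_)
    simp only [Function.comp]
    rw [Finset.sum_product]
    have h5 : ∑ x ∈ Λ, ∑ y ∈ Λ, g x * Fmat 2 (γ / 4) γ x y * g y =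
        γ / 4 * ∑ x ∈ Λ, ∑ y ∈ Λ, g x * Mm x y * g y := by
      rw [Finset.mul_sum]
      refine Finset.sum_congr rfl fun x _ => ?_
      rw [Finset.mul_sum]
      refine Finset.sum_congr rfl fun y _ => ?_
      rw [Fmat_eq]; ring
    have h6 := finite_bound g h0 Λ
    have h7 : ∑ x ∈ Λ, g x ≤ 1 := sum_le_hasSum Λ (fun x _ => h0 x) h1
    have h8 : 0 ≤ ∑ x ∈ Λ, g x := Finset.sum_nonneg fun x _ => h0 x
    have h9 : (∑ x ∈ Λ, g x) ^ 2 ≤ 1 := by nlinarith
    rw [h5]
    nlinarith
  · rw [tsum_eq_zero_of_not_summable hs]; positivity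

/-- the unit square -/
def v4 : Fin 4 → Lat 2 := ![![0, 0], ![1, 0], ![1, 1], ![0, 1]]

/-- a closed walk on the two by three rectangle -/
def v8 : Fin 8 → Lat 2 :=
  ![![0, 1], ![1, 1], ![2, 1], ![2, 0], ![1, 0], ![1, 1], ![1, 0], ![0, 0]]

lemma v4_nbr : ∀ a, IsNbr (v4 a) (v4 (a + 1)) := by decide +kernel
lemma v8_nbr : ∀ a, IsNbr (v8 a) (v8 (a + 1)) := by decide +kernel
lemma v4_sum : ∑ a, ∑ b, Mz (v4 a) (v4 b) = 4 := by decide +kernel
lemma v8_sum : ∑ a, ∑ b, Mz (v8 a) (v8 b) = 16 := by decide +kernel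

lemma form_v4 (γ : ℝ) : form 2 (γ / 4) γ (occ v4) = γ / 16 := by
  rw [form_occ]
  have h : ∑ a, ∑ b, Fmat 2 (γ / 4) γ (v4 a) (v4 b) = γ / 4 * 4 := by
    have h1 : (∑ a, ∑ b, (Mz (v4 a) (v4 b) : ℝ)) = 4 := by exact_mod_cast v4_sum
    refine Eq.trans ?_ (congrArg (fun z => γ / 4 * z) h1)
    rw [Finset.mul_sum]
    refine Finset.sum_congr rfl fun a _ => ?_
    rw [Finset.mul_sum]
    exact Finset.sum_congr rfl fun b _ => by rw [Fmat_eq, Mm_eq]
  rw [h]; norm_num; ring

lemma form_v8 (γ : ℝ) : form 2 (γ / 4) γ (occ v8) = γ / 16 := by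
  rw [form_occ]
  have h : ∑ a, ∑ b, Fmat 2 (γ / 4) γ (v8 a) (v8 b) = γ / 4 * 16 := by
    have h1 : (∑ a, ∑ b, (Mz (v8 a) (v8 b) : ℝ)) = 16 := by exact_mod_cast v8_sum
    refine Eq.trans ?_ (congrArg (fun z => γ / 4 * z) h1)
    rw [Finset.mul_sum]
    refine Finset.sum_congr rfl fun a _ => ?_
    rw [Finset.mul_sum]
    exact Finset.sum_congr rfl fun b _ => by rw [Fmat_eq, Mm_eq]
  rw [h]; norm_num; ring

/-- In dimension two, for every `γ > 0` and `β = γ / 4`, there are two maximisers that are not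
equivalent under lattice isometries. -/
theorem result : ∀ γ : ℝ, 0 < γ → 0 < γ / 4 ∧ γ / 4 < γ ∧ ∃ f f' : Lat 2 → ℝ,
    IsMaximiser 2 (γ / 4) γ f ∧ IsMaximiser 2 (γ / 4) γ f' ∧ ¬ Equivalent f f' := by
  intro γ hγ
  refine ⟨by positivity, by linarith, occ v4, occ v8, ⟨occ_mem v4 v4_nbr, fun g hg => ?_⟩,
    ⟨occ_mem v8 v8_nbr, fun g hg => ?_⟩, ?_⟩
  · rw [form_v4]; exact form_le γ hγ g hg.1 hg.2.1
  · rw [form_v8]; exact form_le γ hγ g hg.1 hg.2.1
  · rintro ⟨σ, s, z, -, h⟩
    have h1 := h ![0, 1]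
    have h2 : occ v8 ![0, 1] = 1 / 8 := by
      unfold occ
      have e : ∀ a : Fin 8, ((![0, 1] : Lat 2) = v8 a) ↔ a = 0 := by decide +kernel
      simp only [e]
      rw [Finset.sum_ite_eq']
      norm_num
    have h3 : ∀ x : Lat 2, ∃ c : ℕ, occ v4 x = (c : ℝ) / 4 := by
      intro x
      refine ⟨(Finset.univ.filter fun a : Fin 4 => x = v4 a).card, ?_⟩
      unfold occ
      rw [← Finset.sum_boole, Finset.sum_div]
      refine Finset.sum_congr rfl fun a _ => ?_
      split_ifs
      · norm_num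
      · norm_num
    obtain ⟨c, hc⟩ := h3 (fun i => s i * (![0, 1] : Lat 2) (σ i) + z i)
    rw [h2, hc] at h1
    have h4 : (1 : ℝ) = 2 * c := by linarith
    have h5 : 1 = 2 * c := by exact_mod_cast h4
    omega

end Pool.Agent.Results.MP_840660_pr.NotUnique
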